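import Mathlib
import Pool.Agent.N829.IFM.Proof

/-!
# Condition (2) does not imply condition (1)

The definitions are in `Pool.Agent.N829.IFM.Defs`, the proof is in `Pool.Agent.N829.IFM.Proof`.
-/

set_option autoImplicit false

open NumberField Pool.Agent.N829.IFM

namespace Pool.Agent.Results.MP_395897_nt.HalfTateTwist

/-- **Condition (2) does not imply condition (1).** For every odd prime `l` and every number field
`F` there is a continuous irreducible (one-dimensional) representation `ρ` of `G_F` over `Q̄_l` which is
unramified at all but finitely many places and satisfies condition (2), and is not de Rham at any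
place above `l`, so that it does not satisfy condition (1). -/
theorem result (l : ℕ) [Fact l.Prime] (hl : l ≠ 2) (F : Type) [Field F] [NumberField F] :
    ∃ ρ : Rep F l 1, Continuous ρ ∧ Irreducible ρ ∧ AlmostUnramified ρ ∧
      ConditionTwo ρ ∧ ¬ ConditionOne ρ ∧
        ∀ ι : AlgebraicClosure F →+* PadicAlgCl l, ¬ IsDeRhamAt ρ ι :=
  halfTateTwist l hl F

end Pool.Agent.Results.MP_395897_nt.HalfTateTwist
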