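import Pool.Agent.N683.TE.D

/-!
# Representations with Frobenius eigenvalues of Tate type and unbounded weights

Let `K` be a number field and `ρ : G_K → GL_n(F)` a continuous irreducible representation over `ℚ_p`, a finite
extension of it, or any complete extension `F` (for example `ℂ_p`).  Suppose that for all finite places `v` outside a
set of lower density zero there is a Frobenius element `g` at `v` such that all eigenvalues of `ρ(g)` are of the form
`ζ N(v) ^ m` with a root of unity `ζ` and an integer `m`, which depend on `v` and on the eigenvalue; neither the
integers `m` nor the orders of the roots of unity are assumed to be bounded.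

Theorem.  There is one integer `s` such that the Tate twist `ρ(-s)` has finite image, and is a subrepresentation of
the zeroth cohomology of a zero-dimensional smooth projective variety over `K`.  So each of the three conditions of the
integral refinement of the conjecture of Fontaine and Mazur says that `s ≤ 0`, and they are equivalent for `ρ`.

Nothing is assumed on the ramification of `ρ`, which may be ramified at infinitely many places, and on the places
above `p`.  If the exponents `m` are in a fixed finite set then this is a simple consequence of the theorem of
Chebotarev; the point is that no bound is assumed, as nothing is known about the Hodge-Tate weights of `ρ` or about the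
absolute values of the Frobenius eigenvalues.

More generally let `d` be a natural number, and suppose that the `d`-th powers of the eigenvalues are of the form
`ζ N(v) ^ m` (fractional weights `m / d`; half a Tate twist of an Artin representation is an example).  Then
`ρ(u) ^ d = χ(u) ^ m` for one integer `m` and all `u` in an open subgroup, with the cyclotomic character `χ`, and if
`d` divides `m = d s` then `ρ(-s)` has finite image.

Proof.  (1) For an integral power `x` of `χ(g)` the distance of `x` and `1` is at most the distance of `χ(g)` and `1`,
uniformly in the exponent.  With the `p`-adic logarithm one can take a uniform exponent `N` such that the eigenvalues of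
`ρ(g) ^ (d N)` are the powers `χ(g) ^ (m N)`; hence the characteristic polynomial of `ρ(g) ^ (d N)` at `1 + s`
differs from `s ^ n` by at most `|χ(g) ^ N - 1|`, for all `|s| ≤ 1`.  This condition is closed, so it holds for all
`g` in `G_K` by the theorem of Chebotarev (from the library).  (2) Hence the elements of a small open normal subgroup
`U` with `χ(u) = 1` act by unipotent matrices, and by the theorem of Kolchin and irreducibility they act trivially.
(3) Let `u₀` be a Frobenius element in `U` at a place of the set, with `χ(u₀) ≠ 1`, let `χ(u₀) ^ m` be an eigenvalue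
of `ρ(u₀) ^ d` and `w` an eigenvector.  The powers of `χ(u₀)` are dense in a neighbourhood of `1` in `ℤ_p`; so
`ρ(u) ^ d w = χ(u) ^ m w` first for `u` in an open subgroup and then, with the logarithm again, in `U`.  The subspace
of these `w` is stable under `G_K`.
-/

set_option autoImplicit false

namespace Pool.Agent.Results.MP_395897_nt.UnboundedTateWeights

open NumberField IsDedekindDomain Filter Matrix

/-- the absolute Galois group of the field `K`, with the Krull topology -/
abbrev AbsGal (K : Type) [Field K] : Type := Gal(AlgebraicClosure K/K)

/-- `g` is an (arithmetic) Frobenius element at a maximal ideal `Q` of the ring of all algebraic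
integers which lies above the finite place `v` of `K`. -/
def IsFrobenius {K : Type} [Field K] [NumberField K] (v : HeightOneSpectrum (𝓞 K))
    (g : AbsGal K) : Prop :=
  ∃ Q : Ideal (𝓞 (AlgebraicClosure K)), Q.IsMaximal ∧
    Q.comap (algebraMap (𝓞 K) (𝓞 (AlgebraicClosure K))) = v.asIdeal ∧
    ∀ x : 𝓞 (AlgebraicClosure K), g • x - x ^ Ideal.absNorm v.asIdeal ∈ Q

/-- the finite places of `K` whose norm is at most `x` -/
def placesUpTo (K : Type) [Field K] [NumberField K] (x : ℕ) : Set (HeightOneSpectrum (𝓞 K)) :=
  {v | Ideal.absNorm v.asIdeal ≤ x}

/-- the complement of `P` has lower density zero -/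
def SparseComplement {K : Type} [Field K] [NumberField K] (P : Set (HeightOneSpectrum (𝓞 K))) : Prop :=
  ∀ ε : ℝ, 0 < ε → ∃ᶠ x : ℕ in atTop, ((placesUpTo K x \ P).ncard : ℝ) ≤ ε * Nat.primeCounting x

/-- the `p`-adic cyclotomic character of the absolute Galois group of `K` -/
noncomputable def chi (K : Type) [Field K] (p : ℕ) [Fact p.Prime] (g : AbsGal K) : ℚ_[p] :=
  ((cyclotomicCharacter (AlgebraicClosure K) p
    (MulSemiringAction.toRingAut (AbsGal K) (AlgebraicClosure K) g) : ℤ_[p]ˣ) : ℤ_[p])

section
variable {K F : Type} [Field K] [Field F] {n : ℕ}

/-- the matrix of `g` -/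
noncomputable def mat (ρ : AbsGal K →* GL (Fin n) F) (g : AbsGal K) : Matrix (Fin n) (Fin n) F :=
  (ρ g : GL (Fin n) F)

/-- `ρ` is irreducible: every stable subspace is zero or everything. -/
def Irreducible (ρ : AbsGal K →* GL (Fin n) F) : Prop :=
  ∀ W : Submodule F (Fin n → F), (∀ g, ∀ x ∈ W, mat ρ g *ᵥ x ∈ W) → W = ⊥ ∨ W = ⊤

/-- For every eigenvalue `a` of the matrix `M`, in an algebraic closure of `F`, the power `a ^ d` is a root of unity
times a power of `q` with an integral exponent. -/
def TateEigenvalues (d q : ℕ) (M : Matrix (Fin n) (Fin n) F) : Prop :=
  ∀ a : AlgebraicClosure F, (M.charpoly.map (algebraMap F (AlgebraicClosure F))).IsRoot a →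
    ∃ m : ℤ, ∃ l : ℕ, 0 < l ∧ a ^ (d * l) = (q : AlgebraicClosure F) ^ (m * l)

end

/-- **Frobenius eigenvalues of Tate type with unbounded weights.**

Let `K` be a number field, `p` a prime number, `F` a complete extension of `ℚ_p` with an absolute value which extends
the `p`-adic one (for example `ℚ_p` itself), and `ρ : G_K → GL_n(F)`, `n > 0`, continuous and irreducible. Let `P` be
a set of finite places of `K` whose complement has lower density zero, and let `d > 0`. Suppose that for every
`v ∈ P` there is a Frobenius element `g` at `v` such that the `d`-th power of every eigenvalue of `ρ(g)` is a root of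
unity times `N(v) ^ m` with an integer `m` (depending on `v` and the eigenvalue).

Then there are one integer `m` and an open normal subgroup `U` of `G_K` with `ρ(u) ^ d = χ(u) ^ m` for all `u ∈ U`.
If `m = d s` with an integer `s` (for example if `d = 1`), then there are a finite set `T` with a continuous action
of `G_K` and an injective `G_K`-equivariant linear map from the Tate twist `ρ(-s)` to the space of functions from
`T` to `F` (which is the zeroth étale cohomology of the finite étale scheme over `K` with the geometric points `T`). -/
theorem result {K : Type} [Field K] [NumberField K] (p : ℕ) [Fact p.Prime] {F : Type}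
    [NormedField F] [NormedAlgebra ℚ_[p] F] [CompleteSpace F] {n : ℕ} (hn : 0 < n)
    (ρ : AbsGal K →* GL (Fin n) F) (hρ : Continuous ρ) (hirr : Irreducible ρ)
    (P : Set (HeightOneSpectrum (𝓞 K))) (hP : SparseComplement P) (d : ℕ) (hd : 0 < d)
    (heig : ∀ v ∈ P, ∃ g, IsFrobenius v g ∧ TateEigenvalues d (Ideal.absNorm v.asIdeal) (mat ρ g)) :
    ∃ m : ℤ, (∃ U : Subgroup (AbsGal K), U.Normal ∧ IsOpen (U : Set (AbsGal K)) ∧
        ∀ u ∈ U, mat ρ u ^ d = (algebraMap ℚ_[p] F (chi K p u)) ^ m • (1 : Matrix (Fin n) (Fin n) F)) ∧
      ∀ s : ℤ, m = d * s → ∃ (T : Type) (_ : Finite T) (_ : MulAction (AbsGal K) T),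
        (∀ t : T, IsOpen (MulAction.stabilizer (AbsGal K) t : Set (AbsGal K))) ∧
        ∃ J : (Fin n → F) →ₗ[F] (T → F), Function.Injective J ∧
          ∀ (g : AbsGal K) (x : Fin n → F) (t : T),
            J ((algebraMap ℚ_[p] F (chi K p g)) ^ (-s) • (mat ρ g *ᵥ x)) t = J x (g⁻¹ • t) := by
  exact Pool.Agent.N683.TE.main_d p hn ρ hρ hirr hd P (by
    intro ε hε
    refine ((hP ε hε).and_eventually (Nat.tendsto_primeCounting.eventually_gt_atTop 0)).mono ?_
    rintro x ⟨h1, h2⟩
    have h3 : (0 : ℝ) < (Nat.primeCounting x : ℝ) := by exact_mod_cast h2
    unfold Pool.Agent.W401.Cheb.dens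
    rw [div_le_iff₀ h3]
    exact h1) heig

end Pool.Agent.Results.MP_395897_nt.UnboundedTateWeights
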